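import Mathlib

open Real MeasureTheory Set

namespace Pool.Agent.H50.Bombieri

lemma exists_ge_circleAverage {f : ℂ → ℝ} (hf : CircleIntegrable f 0 1) :
    ∃ e : ℂ, ‖e‖ = 1 ∧ circleAverage f 0 1 ≤ f e := by
  rw [circleAverage_eq_intervalAverage]
  have h2 : (0:ℝ) ≤ 2 * π := by positivity
  have hμ : (volume.restrict (uIoc 0 (2 * π)) : Measure ℝ) ≠ 0 := by
    rw [uIoc_of_le h2]
    intro h
    have := congrArg (fun μ => μ univ) h
    simp at this
    linarith [pi_pos]
  have hfin : IsFiniteMeasure (volume.restrict (uIoc 0 (2 * π)) : Measure ℝ) := by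
    rw [uIoc_of_le h2]; infer_instance
  have hint : Integrable (fun θ => f (circleMap 0 1 θ)) (volume.restrict (uIoc 0 (2 * π))) := by
    have := hf
    rw [CircleIntegrable, intervalIntegrable_iff] at this
    exact this
  obtain ⟨x, hx⟩ := exists_average_le hμ hint
  exact ⟨circleMap 0 1 x, by simp, hx⟩

lemma circleIntegrable_of_continuous {f : ℂ → ℝ} (hf : Continuous f) :
    CircleIntegrable f 0 1 := by
  apply ContinuousOn.circleIntegrable'
  exact hf.continuousOn

lemma posLog_le_avg (a c : ℂ) :
    max (log⁺ ‖a‖) (log⁺ ‖c‖) ≤ circleAverage (fun e => log⁺ ‖a + e * c‖) 0 1 := by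
  have hint : CircleIntegrable (fun e => log⁺ ‖a + e * c‖) 0 1 :=
    circleIntegrable_of_continuous (by
      have := continuous_posLog
      fun_prop)
  have h0 : 0 ≤ circleAverage (fun e => log⁺ ‖a + e * c‖) 0 1 :=
    circleAverage_nonneg_of_nonneg (fun x _ => posLog_nonneg)
  by_cases hc : c = 0
  · simp [hc, circleAverage_const, posLog_nonneg]
  have h1 : circleAverage (fun e => log ‖a + e * c‖) 0 1 = log ‖c‖ + log⁺ ‖c⁻¹ * a‖ := by
    rw [← Polynomial.logMahlerMeasure_C_mul_X_add_C hc a, Polynomial.logMahlerMeasure_def]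
    congr 1
    ext e
    simp
    congr 2
    ring
  have hint2 : CircleIntegrable (fun e => log ‖a + e * c‖) 0 1 := by
    have := (Polynomial.C c * Polynomial.X + Polynomial.C a).intervalIntegrable_mahlerMeasure
    rw [CircleIntegrable]
    convert this using 4
    simp
    ring
  have h2 : circleAverage (fun e => log ‖a + e * c‖) 0 1 ≤
      circleAverage (fun e => log⁺ ‖a + e * c‖) 0 1 :=
    circleAverage_mono hint2 hint (fun x _ => le_max_right _ _)
  rw [h1] at h2
  have hc' : 0 < ‖c‖ := norm_pos_iff.mpr hc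
  have h3 : (0:ℝ) ≤ log⁺ ‖c⁻¹ * a‖ := posLog_nonneg
  have h4 : log ‖a‖ ≤ log ‖c‖ + log⁺ ‖c⁻¹ * a‖ ∨ a = 0 := by
    by_cases ha : a = 0
    · right; exact ha
    left
    have ha' : 0 < ‖a‖ := norm_pos_iff.mpr ha
    have : log ‖c⁻¹ * a‖ ≤ log⁺ ‖c⁻¹ * a‖ := le_max_right _ _
    rw [norm_mul, norm_inv, log_mul (by positivity) (by positivity), log_inv] at this
    rw [norm_mul, norm_inv]
    linarith
  apply max_le
  · rw [posLog_def]
    apply max_le h0
    rcases h4 with h4 | h4
    · linarith
    · subst h4
      have h5 : Real.log ‖(0:ℂ)‖ = 0 := by simp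
      exact h5.le.trans h0
  · rw [posLog_def]
    apply max_le h0
    linarith

lemma step (a c : ℂ → ℂ) (m : ℂ → ℝ) (ha : Continuous a) (hc : Continuous c)
    (hm : Continuous m) :
    ∃ e : ℂ, ‖e‖ = 1 ∧
      circleAverage (fun z => max (log⁺ ‖a z‖) (max (log⁺ ‖c z‖) (m z))) 0 1 ≤
      circleAverage (fun z => max (log⁺ ‖a z + e * c z‖) (m z)) 0 1 := by
  have hpl := continuous_posLog
  have hF : Continuous (fun e : ℂ => circleAverage (fun z => max (log⁺ ‖a z + e * c z‖) (m z)) 0 1) := by
    have h1 : Continuous (fun e : ℂ => ∫ t in 0..2 * π,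
        max (log⁺ ‖a (circleMap 0 1 t) + e * c (circleMap 0 1 t)‖) (m (circleMap 0 1 t))) := by
      apply intervalIntegral.continuous_parametric_intervalIntegral_of_continuous'
      unfold Function.uncurry
      fun_prop
    unfold circleAverage
    exact h1.fun_const_smul _
  obtain ⟨e, he, hle⟩ := exists_ge_circleAverage (circleIntegrable_of_continuous hF)
  refine ⟨e, he, le_trans ?_ hle⟩
  have hswap : circleAverage (fun e : ℂ => circleAverage (fun z => max (log⁺ ‖a z + e * c z‖) (m z)) 0 1) 0 1
      = circleAverage (fun z : ℂ => circleAverage (fun e => max (log⁺ ‖a z + e * c z‖) (m z)) 0 1) 0 1 := by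
    unfold circleAverage
    rw [intervalIntegral.integral_smul, intervalIntegral.integral_smul]
    congr 2
    apply MeasureTheory.intervalIntegral_intervalIntegral_swap
    apply IntegrableOn.mono_set (t := Icc 0 (2 * π) ×ˢ Icc 0 (2 * π))
    · apply ContinuousOn.integrableOn_compact
      · exact isCompact_Icc.prod isCompact_Icc
      · apply Continuous.continuousOn
        unfold Function.uncurry
        fun_prop
    · rw [uIoc_of_le (by positivity)]
      exact prod_mono Ioc_subset_Icc_self Ioc_subset_Icc_self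
  rw [hswap]
  apply circleAverage_mono
  · exact circleIntegrable_of_continuous (by fun_prop)
  · apply circleIntegrable_of_continuous
    have h1 : Continuous (fun z : ℂ => ∫ t in 0..2 * π,
        max (log⁺ ‖a z + (circleMap 0 1 t) * c z‖) (m z)) := by
      apply intervalIntegral.continuous_parametric_intervalIntegral_of_continuous'
      unfold Function.uncurry
      fun_prop
    unfold circleAverage
    exact h1.fun_const_smul _
  · intro z _
    have hint : CircleIntegrable (fun e => log⁺ ‖a z + e * c z‖) 0 1 :=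
      circleIntegrable_of_continuous (by fun_prop)
    have hint2 : CircleIntegrable (fun e => max (log⁺ ‖a z + e * c z‖) (m z)) 0 1 :=
      circleIntegrable_of_continuous (by fun_prop)
    have h1 := posLog_le_avg (a z) (c z)
    have h2 : circleAverage (fun e => log⁺ ‖a z + e * c z‖) 0 1 ≤
        circleAverage (fun e => max (log⁺ ‖a z + e * c z‖) (m z)) 0 1 :=
      circleAverage_mono hint hint2 (fun x _ => le_max_left _ _)
    have h3 : circleAverage (fun _ : ℂ => m z) 0 1 ≤
        circleAverage (fun e => max (log⁺ ‖a z + e * c z‖) (m z)) 0 1 :=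
      circleAverage_mono (circleIntegrable_const _ _ _) hint2 (fun x _ => le_max_right _ _)
    rw [circleAverage_const] at h3
    rw [← max_assoc]
    exact max_le (h1.trans h2) h3

/-- running maximum -/
noncomputable def M (c : ℕ → ℂ → ℂ) (m : ℂ → ℝ) : ℕ → ℂ → ℝ
  | 0, z => m z
  | (k + 1), z => max (log⁺ ‖c k z‖) (M c m k z)

lemma M_continuous (c : ℕ → ℂ → ℂ) (m : ℂ → ℝ) (hc : ∀ k, Continuous (c k))
    (hm : Continuous m) (k : ℕ) : Continuous (M c m k) := by
  induction k with
  | zero => exact hm
  | succ k ih =>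
    have hpl := continuous_posLog
    have hck := hc k
    have : Continuous (fun z => max (log⁺ ‖c k z‖) (M c m k z)) := by fun_prop
    exact this

lemma le_M (c : ℕ → ℂ → ℂ) (m : ℂ → ℝ) (z : ℂ) (k j : ℕ) (hj : j < k) :
    log⁺ ‖c j z‖ ≤ M c m k z := by
  induction k with
  | zero => omega
  | succ k ih =>
    show _ ≤ max (log⁺ ‖c k z‖) (M c m k z)
    rcases Nat.lt_succ_iff_lt_or_eq.mp hj with h | h
    · exact (ih h).trans (le_max_right _ _)
    · rw [h]; exact le_max_left _ _

lemma m_le_M (c : ℕ → ℂ → ℂ) (m : ℂ → ℝ) (z : ℂ) (k : ℕ) :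
    m z ≤ M c m k z := by
  induction k with
  | zero => exact le_refl _
  | succ k ih => exact ih.trans (le_max_right _ _)

lemma steps (c : ℕ → ℂ → ℂ) (m : ℂ → ℝ) (hc : ∀ k, Continuous (c k))
    (hm : Continuous m) (k : ℕ) : ∀ a : ℂ → ℂ, Continuous a →
    ∃ e : ℕ → ℂ, (∀ j, ‖e j‖ = 1) ∧
      circleAverage (fun z => max (log⁺ ‖a z‖) (M c m k z)) 0 1 ≤
      circleAverage (fun z => max (log⁺ ‖a z + ∑ j ∈ Finset.range k, e j * c j z‖) (m z)) 0 1 := by
  induction k with
  | zero =>
    intro a ha
    exact ⟨fun _ => 1, by simp, by simp [M]⟩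
  | succ k ih =>
    intro a ha
    obtain ⟨e0, he0, hle0⟩ := step a (c k) (M c m k) ha (hc k) (M_continuous c m hc hm k)
    have hck := hc k
    obtain ⟨e, he, hle⟩ := ih (fun z => a z + e0 * c k z) (by fun_prop)
    refine ⟨Function.update e k e0, ?_, ?_⟩
    · intro j
      by_cases h : j = k
      · subst h; simp [he0]
      · simp [h, he]
    · refine (hle0.trans hle).trans (le_of_eq ?_)
      congr 1
      ext z
      congr 3
      rw [Finset.sum_range_succ]
      simp only [Function.update_self]
      have : ∑ j ∈ Finset.range k, Function.update e k e0 j * c j z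
          = ∑ j ∈ Finset.range k, e j * c j z := by
        apply Finset.sum_congr rfl
        intro j hj
        have : j ≠ k := by
          have := Finset.mem_range.mp hj
          omega
        simp [this]
      rw [this]
      ring

end Pool.Agent.H50.Bombieri
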