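import Mathlib
import Pool.Agent.H50.Bombieri1

open Real MeasureTheory Set Polynomial

namespace Pool.Agent.H50.Bombieri

/-- average of log (1 + |1 + z|) over the unit circle -/
noncomputable def lam : ℝ := circleAverage (fun z : ℂ => log (1 + ‖1 + z‖)) 0 1

lemma cont_log : Continuous (fun z : ℂ => log (1 + ‖1 + z‖)) := by
  apply Continuous.log
  · fun_prop
  · intro z
    positivity

lemma pointwise (n : ℕ) (z : ℂ) :
    n * log (1 + ‖1 + z‖) - log (n + 1) ≤
      M (fun j z => ((n.choose (j+1) : ℕ) : ℂ) * (1 + z) ^ (j + 1)) (fun _ => 0) n z := by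
  set x := ‖1 + z‖ with hx
  have hx0 : 0 ≤ x := norm_nonneg _
  have hsum : (1 + x) ^ n = ∑ j ∈ Finset.range (n + 1), (n.choose j : ℝ) * x ^ j := by
    rw [add_comm, add_pow]
    apply Finset.sum_congr rfl
    intro j _
    simp
    ring
  have hex : ∃ j ∈ Finset.range (n+1), (1 + x) ^ n / (n + 1) ≤ (n.choose j : ℝ) * x ^ j := by
    by_contra hcon
    push Not at hcon
    have := Finset.sum_lt_sum_of_nonempty (by simp) hcon
    rw [← hsum, Finset.sum_const, Finset.card_range, nsmul_eq_mul] at this
    push_cast at this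
    have h2 : ((n:ℝ) + 1) * ((1 + x) ^ n / (n + 1)) = (1+x)^n := by
      field_simp
    linarith
  obtain ⟨j, hj, hle⟩ := hex
  have hpos : 0 < (1 + x) ^ n / ((n:ℝ) + 1) := by positivity
  have hlog : n * log (1 + x) - log (n + 1) ≤ log ((n.choose j : ℝ) * x ^ j) := by
    have := log_le_log hpos hle
    rwa [log_div (by positivity) (by positivity), log_pow] at this
  rcases j with _ | j
  · simp at hlog
    have := m_le_M (fun j z => ((n.choose (j+1) : ℕ) : ℂ) * (1 + z) ^ (j + 1)) (fun _ => 0) z n
    linarith
  · have hj' : j < n := by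
      have := Finset.mem_range.mp hj
      omega
    have h1 := le_M (fun j z => ((n.choose (j+1) : ℕ) : ℂ) * (1 + z) ^ (j + 1)) (fun _ => 0) z n j hj'
    simp only [norm_mul, norm_pow] at h1
    rw [← hx] at h1
    have h2 : log ((n.choose (j+1) : ℝ) * x ^ (j+1)) ≤ log⁺ (‖((n.choose (j+1) : ℕ) : ℂ)‖ * x ^ (j+1)) := by
      rw [Complex.norm_natCast]
      exact le_max_right _ _
    linarith

lemma exists_coeffs (n : ℕ) (hn : 1 ≤ n) :
    ∃ u : ℕ → ℂ, (∀ j, ‖u j‖ = 1) ∧ u n = 1 ∧
      n * lam - log (n + 1) ≤
        circleAverage (fun z => log ‖∑ j ∈ Finset.range (n + 1), u j * (n.choose j : ℂ) * (1 + z) ^ j‖) 0 1 := by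
  set c : ℕ → ℂ → ℂ := fun j z => ((n.choose (j+1) : ℕ) : ℂ) * (1 + z) ^ (j + 1) with hc
  have hcc : ∀ k, Continuous (c k) := by
    intro k
    simp only [hc]
    fun_prop
  obtain ⟨e, he, hle⟩ := steps c (fun _ => 0) hcc continuous_const n (fun _ => 0) continuous_const
  set b : ℂ → ℂ := fun z => ∑ j ∈ Finset.range n, e j * c j z with hb
  have hbc : Continuous b := by
    simp only [hb]
    apply continuous_finsetSum
    intro j _
    have := hcc j
    fun_prop
  have hpl := continuous_posLog
  -- first comparison
  have h1 : n * lam - log (n + 1) ≤ circleAverage (fun z => log⁺ ‖b z‖) 0 1 := by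
    have hA : circleAverage (fun z => n * log (1 + ‖1 + z‖) - log (n + 1)) 0 1 = n * lam - log (n + 1) := by
      rw [circleAverage_fun_sub]
      · rw [circleAverage_const]
        congr 1
        have := circleAverage_fun_smul (a := (n:ℝ)) (f := fun z : ℂ => log (1 + ‖1 + z‖)) (c := 0) (R := 1)
        simp only [smul_eq_mul] at this
        rw [this]
        rfl
      · apply circleIntegrable_of_continuous
        exact continuous_const.mul cont_log
      · exact circleIntegrable_const _ _ _
    rw [← hA]
    have hB : circleAverage (fun z => n * log (1 + ‖1 + z‖) - log (n + 1)) 0 1 ≤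
        circleAverage (fun z => max (log⁺ ‖(0:ℂ)‖) (M c (fun _ => 0) n z)) 0 1 := by
      apply circleAverage_mono
      · apply circleIntegrable_of_continuous
        exact (continuous_const.mul cont_log).sub continuous_const
      · apply circleIntegrable_of_continuous
        exact continuous_const.max (M_continuous c _ hcc continuous_const n)
      · intro z _
        exact (pointwise n z).trans (le_max_right _ _)
    refine (hB.trans hle).trans (le_of_eq ?_)
    congr 1
    ext z
    rw [zero_add]
    exact max_eq_left posLog_nonneg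
  -- Cartan
  have hmer : Meromorphic b := by
    have : ∀ x, AnalyticAt ℂ b x := by
      intro x
      simp only [hb, hc]
      fun_prop
    intro x
    exact (this x).meromorphicAt
  have h2 := congrFun (ValueDistribution.circleAverage_circleAverage_eq_proximity_top hmer) 1
  have h3 := ValueDistribution.circleIntegrable_circleAverage_log_norm_sub (R := 1) hmer
  obtain ⟨e0, he0, hle0⟩ := exists_ge_circleAverage h3
  rw [h2, ValueDistribution.proximity_top] at hle0
  have h4 : n * lam - log (n + 1) ≤ circleAverage (fun z => log ‖b z - e0‖) 0 1 := h1.trans hle0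
  obtain ⟨k, rfl⟩ : ∃ k, n = k + 1 := ⟨n - 1, by omega⟩
  have hek : e k ≠ 0 := by
    intro h
    have := he k
    simp [h] at this
  refine ⟨fun j => if j = 0 then -(e k)⁻¹ * e0 else (e k)⁻¹ * e (j - 1), ?_, ?_, ?_⟩
  · intro j
    by_cases hj : j = 0
    · simp [hj, he, he0]
    · simp [hj, he]
  · simp [hek]
  · refine h4.trans (le_of_eq ?_)
    congr 1
    ext z
    rw [Finset.sum_range_succ']
    have hsum : ∑ i ∈ Finset.range (k + 1),
        (if i + 1 = 0 then -(e k)⁻¹ * e0 else (e k)⁻¹ * e (i + 1 - 1)) * ((k + 1).choose (i + 1) : ℂ) * (1 + z) ^ (i + 1)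
        = (e k)⁻¹ * b z := by
      simp only [hb, hc, Finset.mul_sum]
      apply Finset.sum_congr rfl
      intro i _
      simp
      ring
    rw [hsum]
    have : (e k)⁻¹ * b z + (if 0 = 0 then -(e k)⁻¹ * e0 else (e k)⁻¹ * e (0 - 1)) * ((k + 1).choose 0 : ℂ) * (1 + z) ^ 0
        = (e k)⁻¹ * (b z - e0) := by
      simp
      ring
    rw [this, norm_mul, norm_inv, he k]
    simp

lemma exists_poly (n : ℕ) (hn : 1 ≤ n) :
    ∃ p : ℂ[X], p.Monic ∧ p.natDegree = n ∧ (∀ j ≤ n, ‖p.coeff j‖ = n.choose j) ∧
      n * lam - log (n + 1) ≤ (p.comp (X + C 1)).logMahlerMeasure := by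
  obtain ⟨u, hu, hun, hle⟩ := exists_coeffs n hn
  set p : ℂ[X] := ∑ j ∈ Finset.range (n + 1), C (u j * (n.choose j : ℂ)) * X ^ j with hp
  have hcoeff : ∀ j, j ≤ n → p.coeff j = u j * (n.choose j : ℂ) := by
    intro j hj
    rw [hp, finsetSum_coeff]
    simp only [coeff_C_mul, coeff_X_pow]
    rw [Finset.sum_eq_single j]
    · simp
    · intro i _ hij
      simp [Ne.symm hij]
    · intro h
      exfalso
      apply h
      simp
      omega
  have hcoeff2 : ∀ j, n < j → p.coeff j = 0 := by
    intro j hj
    rw [hp, finsetSum_coeff]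
    apply Finset.sum_eq_zero
    intro i hi
    have := Finset.mem_range.mp hi
    rw [coeff_C_mul, coeff_X_pow, if_neg (by omega), mul_zero]
  have hcn : p.coeff n = 1 := by
    rw [hcoeff n le_rfl, hun]; simp
  have hdeg : p.natDegree = n := by
    apply le_antisymm
    · exact natDegree_le_iff_coeff_eq_zero.mpr (fun j hj => hcoeff2 j hj)
    · apply le_natDegree_of_ne_zero
      rw [hcn]; exact one_ne_zero
  refine ⟨p, ?_, hdeg, ?_, ?_⟩
  · rw [Monic, leadingCoeff, hdeg, hcn]
  · intro j hj
    rw [hcoeff j hj, norm_mul, hu j, one_mul, Complex.norm_natCast]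
  · refine hle.trans (le_of_eq ?_)
    rw [logMahlerMeasure_def]
    congr 1
    ext z
    congr 2
    rw [hp]
    simp only [eval_comp, eval_finsetSum, eval_mul, eval_C, eval_pow, eval_X, eval_add]
    apply Finset.sum_congr rfl
    intro j _
    ring

lemma mahler_shift (p : ℂ[X]) (hp : p.Monic) (w : ℂ) :
    (p.comp (X + C w)).mahlerMeasure = (p.roots.map (fun α => max 1 ‖w - α‖)).prod := by
  have h := (IsAlgClosed.splits p).eq_prod_roots
  rw [hp.leadingCoeff, C_1, one_mul] at h
  conv_lhs => rw [h]
  rw [multiset_prod_comp, prod_mahlerMeasure_eq_mahlerMeasure_prod, Multiset.map_map, Multiset.map_map]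
  congr 1
  apply Multiset.map_congr rfl
  intro α _
  simp only [Function.comp]
  have : (X - C α : ℂ[X]).comp (X + C w) = X - C (α - w) := by
    simp
    ring
  rw [this, mahlerMeasure_X_sub_C, norm_sub_rev]

lemma eval_roots (p : ℂ[X]) (hp : p.Monic) (w : ℂ) :
    ‖p.eval w‖ = (p.roots.map (fun α => ‖w - α‖)).prod := by
  have h := (IsAlgClosed.splits p).eq_prod_roots
  rw [hp.leadingCoeff, C_1, one_mul] at h
  conv_lhs => rw [h]
  rw [eval_multiset_prod, Multiset.map_map]
  have : ∀ s : Multiset ℂ, ‖(s.map ((eval w) ∘ fun a => X - C a)).prod‖ = (s.map (fun α => ‖w - α‖)).prod := by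
    intro s
    induction s using Multiset.induction_on with
    | empty => simp
    | cons a s ih => simp only [Multiset.map_cons, Multiset.prod_cons, norm_mul, ih]; simp
  exact this _

lemma exists_factor (p : ℂ[X]) (hp : p.Monic) (w : ℂ) :
    ∃ q : ℂ[X], q.Monic ∧ q ∣ p ∧ ‖q.eval w‖ = (p.comp (X + C w)).mahlerMeasure := by
  classical
  set s := p.roots.filter (fun α => 1 ≤ ‖w - α‖) with hs
  set q : ℂ[X] := (s.map (fun α => X - C α)).prod with hq
  have hqm : q.Monic := by
    rw [hq]
    apply monic_multiset_prod_of_monic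
    intro α _
    exact monic_X_sub_C α
  have hroots : q.roots = s := by
    rw [hq, roots_multiset_prod_X_sub_C]
  refine ⟨q, hqm, ?_, ?_⟩
  · have h := (IsAlgClosed.splits p).eq_prod_roots
    rw [hp.leadingCoeff, C_1, one_mul] at h
    rw [h, hq]
    apply Multiset.prod_dvd_prod_of_le
    apply Multiset.map_le_map
    exact Multiset.filter_le _ _
  · rw [eval_roots q hqm, mahler_shift p hp, hroots, hs]
    have : ∀ t : Multiset ℂ, ((t.filter (fun α => 1 ≤ ‖w - α‖)).map (fun α => ‖w - α‖)).prod
        = (t.map (fun α => max 1 ‖w - α‖)).prod := by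
      intro t
      induction t using Multiset.induction_on with
      | empty => simp
      | cons a t ih =>
        by_cases h : 1 ≤ ‖w - a‖
        · rw [Multiset.filter_cons_of_pos (p := fun α => 1 ≤ ‖w - α‖) _ h]
          simp only [Multiset.map_cons, Multiset.prod_cons, ih]
          rw [max_eq_right h]
        · rw [Multiset.filter_cons_of_neg (p := fun α => 1 ≤ ‖w - α‖) _ h]
          simp only [Multiset.map_cons, Multiset.prod_cons, ih]
          rw [max_eq_left (by linarith), one_mul]
    exact this _

lemma upper_aux (p q : ℂ[X]) (hp : p.Monic) (hq : q.Monic) (hqp : q ∣ p) (w : ℂ) :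
    ‖q.eval w‖ ≤ (p.comp (X + C w)).mahlerMeasure := by
  rw [eval_roots q hq, mahler_shift p hp]
  have hle : q.roots ≤ p.roots := roots.le_of_dvd hp.ne_zero hqp
  obtain ⟨r, hr⟩ := Multiset.le_iff_exists_add.mp hle
  rw [hr, Multiset.map_add, Multiset.prod_add]
  have h1 : (q.roots.map (fun α => ‖w - α‖)).prod ≤ (q.roots.map (fun α => max 1 ‖w - α‖)).prod := by
    apply Multiset.prod_map_le_prod_map₀
    · intro α _; exact norm_nonneg _
    · intro α _; exact le_max_right _ _
  have h2 : 1 ≤ (r.map (fun α => max 1 ‖w - α‖)).prod := by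
    apply Multiset.one_le_prod
    intro x hx
    obtain ⟨α, _, rfl⟩ := Multiset.mem_map.mp hx
    exact le_max_left _ _
  have h3 : 0 ≤ (q.roots.map (fun α => max 1 ‖w - α‖)).prod := by
    apply Multiset.prod_nonneg
    intro x hx
    obtain ⟨α, _, rfl⟩ := Multiset.mem_map.mp hx
    positivity
  nlinarith

lemma rotate (w : ℂ) (hw : ‖w‖ = 1) :
    circleAverage (fun z : ℂ => log (1 + ‖z + w‖)) 0 1 = lam := by
  obtain ⟨η, hη⟩ : ∃ η : ℝ, w = circleMap 0 1 η := by
    have : w ∈ Metric.sphere (0:ℂ) |(1:ℝ)| := by simp [hw]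
    rw [← range_circleMap] at this
    obtain ⟨η, hη⟩ := this
    exact ⟨η, hη.symm⟩
  rw [circleAverage_eq_integral_add η, lam, circleAverage_def]
  congr 1
  apply intervalIntegral.integral_congr
  intro θ _
  simp only
  congr 2
  have : circleMap 0 1 (θ + η) + w = (1 + circleMap 0 1 θ) * w := by
    rw [hη]
    simp [circleMap, add_mul, Complex.exp_add]
    ring
  rw [this, norm_mul, hw, mul_one]

lemma upper_mahler (n : ℕ) (p : ℂ[X]) (hp : p.Monic) (hn : p.natDegree = n) (B : ℝ)
    (hB : ∀ j ≤ n, ‖p.coeff j‖ ≤ B * n.choose j) (w : ℂ) (hw : ‖w‖ = 1) :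
    (p.comp (X + C w)).mahlerMeasure ≤ B * exp lam ^ n := by
  have hB1 : 1 ≤ B := by
    have := hB n le_rfl
    rw [← hn, hp.coeff_natDegree] at this
    simpa using this
  have hne : p.comp (X + C w) ≠ 0 := by
    have : (p.comp (X + C w)).Monic := hp.comp (monic_X_add_C w) (by simp)
    exact this.ne_zero
  have hlog : (p.comp (X + C w)).logMahlerMeasure ≤ log B + n * lam := by
    rw [logMahlerMeasure_def]
    have hrhs : log B + n * lam = circleAverage (fun z => log B + n * log (1 + ‖z + w‖)) 0 1 := by
      have hci : CircleIntegrable (fun z : ℂ => n * log (1 + ‖z + w‖)) 0 1 := by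
        apply circleIntegrable_of_continuous
        apply continuous_const.mul
        apply Continuous.log
        · fun_prop
        · intro z; positivity
      rw [circleAverage_fun_add (circleIntegrable_const _ _ _) hci, circleAverage_const]
      congr 1
      have := circleAverage_fun_smul (a := (n:ℝ)) (f := fun z : ℂ => log (1 + ‖z + w‖)) (c := 0) (R := 1)
      simp only [smul_eq_mul] at this
      rw [this, rotate w hw]
    rw [hrhs]
    apply circleAverage_mono
    · have := (p.comp (X + C w)).intervalIntegrable_mahlerMeasure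
      exact this
    · apply circleIntegrable_of_continuous
      apply continuous_const.add
      apply continuous_const.mul
      apply Continuous.log
      · fun_prop
      · intro z; positivity
    · intro z _
      have hval : ‖(p.comp (X + C w)).eval z‖ ≤ B * (1 + ‖z + w‖) ^ n := by
        rw [eval_comp, eval_eq_sum_range, hn]
        simp only [eval_add, eval_X, eval_C]
        calc ‖∑ i ∈ Finset.range (n + 1), p.coeff i * (z + w) ^ i‖
            ≤ ∑ i ∈ Finset.range (n + 1), B * n.choose i * ‖z + w‖ ^ i := by
              apply norm_sum_le_of_le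
              intro i hi
              rw [norm_mul, norm_pow]
              have := hB i (by have := Finset.mem_range.mp hi; omega)
              gcongr
          _ = B * (1 + ‖z + w‖) ^ n := by
              rw [add_comm 1, add_pow, Finset.mul_sum]
              apply Finset.sum_congr rfl
              intro i _
              simp
              ring
      by_cases h0 : (p.comp (X + C w)).eval z = 0
      · rw [h0]
        simp only [norm_zero, log_zero]
        have h1 : 0 ≤ log B := log_nonneg hB1
        have h2 : 0 ≤ log (1 + ‖z + w‖) := log_nonneg (by linarith [norm_nonneg (z + w)])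
        positivity
      · have hpos : 0 < ‖(p.comp (X + C w)).eval z‖ := norm_pos_iff.mpr h0
        have := log_le_log hpos hval
        rw [log_mul (by positivity) (by positivity), log_pow] at this
        exact this
  rw [mahlerMeasure, if_pos hne]
  calc exp (p.comp (X + C w)).logMahlerMeasure ≤ exp (log B + n * lam) := exp_le_exp.mpr hlog
    _ = B * exp lam ^ n := by
      rw [exp_add, exp_log (by positivity), ← exp_nat_mul]

end Pool.Agent.H50.Bombieri
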